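import Mathlib

set_option autoImplicit false

namespace Pool.Agent.Results.MP_8292e8_an.Exists

open Filter Topology RCLike Finset

/-- some orbit has a dense convex hull -/
def ConvexCyclic {𝕜 X : Type*} [RCLike 𝕜] [NormedAddCommGroup X] [NormedSpace 𝕜 X]
    [NormedSpace ℝ X] (T : X →L[𝕜] X) : Prop :=
  ∃ x, Dense (convexHull ℝ (Set.range fun n : ℕ => (T ^ n) x))

variable {𝕜 X : Type*} [RCLike 𝕜] [NormedAddCommGroup X] [NormedSpace 𝕜 X]

lemma biorth [TopologicalSpace.SeparableSpace X] : ∃ (x : ℕ → X) (f : ℕ → X →L[𝕜] 𝕜),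
    (∀ i j, i ≠ j → f i (x j) = 0) ∧ (∀ i, f i (x i) • x i = x i) ∧
    (∀ i y, f i (x i) * f i y = f i y) ∧ ∀ g : X →L[𝕜] 𝕜, (∀ i, g (x i) = 0) → g = 0 := by
  have : ∀ y : X, ∃ φ : X →L[𝕜] 𝕜, φ y • y = y ∧ ∀ z, φ y * φ z = φ z := fun y => by
    by_cases h : y = 0
    · exact ⟨0, by simp [h], by simp⟩
    · obtain ⟨g, -, hg⟩ := exists_dual_vector 𝕜 y (norm_ne_zero_iff.2 h)
      exact ⟨(‖y‖ : 𝕜)⁻¹ • g, by simp [hg, h], by simp [hg, h]⟩
  choose φ h1 h2 using this
  obtain ⟨d, hd⟩ := TopologicalSpace.exists_dense_seq X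
  let P : ℕ → X →L[𝕜] X := fun n => Nat.rec 0
    (fun n p => p + ((φ (d n - p (d n))).comp (1 - p)).smulRight (d n - p (d n))) n
  let x : ℕ → X := fun n => d n - P n (d n)
  let f : ℕ → X →L[𝕜] 𝕜 := fun n => (φ (x n)).comp (1 - P n)
  have hP : ∀ n y, P (n + 1) y = P n y + f n y • x n := fun n y => rfl
  have hf : ∀ n y, f n y = φ (x n) (y - P n y) := fun n y => rfl
  have a : ∀ n, (∀ y, P n (P n y) = P n y) → P n (x n) = 0 ∧ (∀ y, f n (P n y) = 0) ∧
      f n (x n) • x n = x n ∧ ∀ y, f n (x n) * f n y = f n y := fun n h => by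
    have : P n (x n) = 0 := by simp [x, h]
    exact ⟨this, fun y => by simp [hf, h], by simp [hf, this, h1], fun y => by rw [hf, this, sub_zero, hf, h2]⟩
  have b : ∀ n y, P n (P n y) = P n y := fun n => by
    induction n with
    | zero => exact fun _ => rfl
    | succ n ih =>
      obtain ⟨a1, a2, -, a4⟩ := a n ih
      intro y
      simp [hP, ih, a1, a2, mul_comm (f n y), a4]
  have c : ∀ j n, P (j + 1 + n) (x j) = x j ∧ ∀ y, f j (P (j + 1 + n) y) = f j y := fun j n => by
    obtain ⟨a1, a2, a3, a4⟩ := a j (b j)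
    induction n with
    | zero => exact ⟨by simp [hP, a1, a3], fun y => by simp [hP, a2, mul_comm (f j y), a4]⟩
    | succ n ih =>
      rw [← add_assoc]
      exact ⟨by simp [hP, hf, ih.1], fun y => by simp [hP, ih.2, x]⟩
  refine ⟨x, f, fun i j h => ?_, fun i => (a i (b i)).2.2.1, fun i => (a i (b i)).2.2.2,
    fun g hg => ?_⟩
  · rcases h.lt_or_gt with h | h <;> obtain ⟨n, rfl⟩ := Nat.exists_eq_add_of_le h
    · simp [x, (c i n).2]
    · simp [hf, (c j n).1]
  · have e : ∀ n y, g (P n y) = 0 := fun n y => by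
      induction n with
      | zero => exact map_zero g
      | succ n ih => simp [hP, ih, hg]
    ext y
    refine hd.induction_on y (isClosed_eq (by fun_prop) (by fun_prop)) fun n => ?_
    simpa [x, e] using hg n

lemma main [TopologicalSpace.SeparableSpace X] [CompleteSpace X] [Nontrivial X] [NormedSpace ℝ X]
    [IsScalarTower ℝ 𝕜 X] (ω : 𝕜) (h4 : ω ^ 4 = 1) (H1 : ∀ c ≠ 0, ∃ r : ℕ, 0 < re (ω ^ r * c))
    (H2 : ∀ c : 𝕜, ∃ e ≠ 0, ∀ j : ℕ, 0 ≤ re (e * ((ω ^ 2) ^ j * c))) :
    ∃ S : X →L[𝕜] X, ConvexCyclic S ∧ ¬ ConvexCyclic (S ^ 2) := by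
  obtain ⟨x, f, h1, h2, h3, h5⟩ := biorth (𝕜 := 𝕜) (X := X)
  let D : ℕ → ℝ := fun n => 1 + ∑ k ∈ range (n + 1), (‖f k‖ + 1) * ‖x k‖
  have D0 : ∀ n, 0 < D n := fun n => by positivity
  let ε : ℕ → ℝ := fun n => (1 / 2) ^ n / D n
  have ε0 : ∀ n, 0 < ε n := fun n => div_pos (by positivity) (D0 n)
  have εa : StrictAnti ε := strictAnti_nat_of_succ_lt fun n =>
    div_lt_div₀ (pow_lt_pow_right_of_lt_one₀ (by norm_num) (by norm_num) n.lt_succ_self)
      (by simp only [D, sum_range_succ _ (n + 1), ← add_assoc]; exact le_add_of_nonneg_right (by positivity))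
      (by positivity) (D0 n)
  have εb : ∀ n, ε n * ((‖f n‖ + 1) * ‖x n‖) ≤ (1 / 2) ^ n := fun n => by
    rw [div_mul_eq_mul_div, div_le_iff₀ (D0 n)]
    refine mul_le_mul_of_nonneg_left ?_ (by positivity)
    simp only [D, sum_range_succ, ← add_assoc]; exact le_add_of_nonneg_left (by positivity)
  have sK : Summable fun n => (ε n : 𝕜) • (f n).smulRight (x n) :=
    .of_norm_bounded summable_geometric_two fun n => by
      rw [norm_smul, ContinuousLinearMap.norm_smulRight_apply, norm_ofReal, abs_of_pos (ε0 n)]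
      refine le_trans ?_ (εb n); gcongr; linarith
  have nv : ∀ n, ‖(ε n : 𝕜) • x n‖ ≤ (1 / 2) ^ n := fun n => by
    rw [norm_smul, norm_ofReal, abs_of_pos (ε0 n)]
    refine le_trans (mul_le_mul_of_nonneg_left ?_ (ε0 n).le) (εb n)
    nlinarith [norm_nonneg (f n), norm_nonneg (x n)]
  have sv : Summable fun n => (ε n : 𝕜) • x n := .of_norm_bounded summable_geometric_two nv
  obtain ⟨K, hK⟩ := sK
  obtain ⟨v, hv⟩ := sv
  have hK' : ∀ y, HasSum (fun n => (ε n : 𝕜) • f n y • x n) (K y) := fun y =>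
    hK.mapL (ContinuousLinearMap.apply 𝕜 X y)
  have K1 : ∀ j, K (x j) = (ε j : 𝕜) • x j := fun j => (hK' _).unique (by
    simpa [h2] using hasSum_single (f := fun n => (ε n : 𝕜) • f n (x j) • x n) j
      fun n hn => by simp [h1 n j hn])
  have K2 : ∀ j y, f j (K y) = ε j * f j y := fun j y => ((hK' y).mapL (f j)).unique (by
    simpa [mul_comm (f j y), h3, real_smul_eq_coe_mul] using
      hasSum_single (f := fun n => f j ((ε n : 𝕜) • f n y • x n)) j
        fun n hn => by simp [h1 j n hn.symm])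
  let S : X →L[𝕜] X := ω • ((2 : 𝕜) • 1 + K)
  have hS : ∀ y, S y = ω • ((2 : 𝕜) • y + K y) := fun y => rfl
  have S1 : ∀ j m, (S ^ m) (x j) = (ω ^ m * ((2 + ε j) ^ m : ℝ)) • x j := fun j m => by
    induction m with
    | zero => simp
    | succ m ih =>
      rw [pow_succ', mul_apply_eq_comp, ih, map_smul, hS, K1, ← add_smul, smul_smul,
        smul_smul]
      congr 1; push_cast; ring
  have S2 : ∀ j m y, f j ((S ^ m) y) = ((2 + ε j) ^ m : ℝ) * (ω ^ m * f j y) := fun j m y => by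
    induction m with
    | zero => simp
    | succ m ih =>
      rw [pow_succ', mul_apply_eq_comp, hS, map_smul, map_add, map_smul, K2, ih]
      simp only [smul_eq_mul]; push_cast; ring
  refine ⟨S, ⟨v, fun y => ?_⟩, fun ⟨y, hy⟩ => ?_⟩
  · by_contra hc
    obtain ⟨g, u, g1, g2⟩ := RCLike.geometric_hahn_banach_closed_point (𝕜 := 𝕜)
      (convex_convexHull ℝ _).closure isClosed_closure hc
    have g3 : ∀ m, re (g ((S ^ m) v)) < u := fun m =>
      g1 _ (subset_closure (subset_convexHull ℝ _ ⟨m, rfl⟩))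
    have ex : ∃ n, g (x n) ≠ 0 := by
      by_contra! h
      have := (g3 0).trans g2
      simp [h5 g h] at this
    classical
    set n := Nat.find ex
    have p : ∀ k, 0 < 2 + ε k := fun k => by linarith [ε0 k]
    have le : ∀ k, g (x k) ≠ 0 → ε k ≤ ε n := fun k hk => εa.antitone (Nat.find_min' ex hk)
    have t := tendsto_tsum_of_dominated_convergence (𝓕 := atTop)
      (f := fun m k => ((((2 + ε k) / (2 + ε n)) ^ m : ℝ) : 𝕜) * g ((ε k : 𝕜) • x k))
      (g := fun k => if k = n then g ((ε n : 𝕜) • x n) else 0)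
      (summable_geometric_two.mul_left ‖g‖) (fun k => by
        split_ifs with h
        · rw [h, div_self (p n).ne']; simp
        by_cases hk : g (x k) = 0
        · simp [hk]
        have : (2 + ε k) / (2 + ε n) < 1 := (div_lt_one (p n)).2 (by
          linarith [εa (lt_of_le_of_ne (Nat.find_min' ex hk) (Ne.symm h))])
        simpa using ((continuous_ofReal (K := 𝕜)).tendsto' _ _ ofReal_zero |>.comp
          (tendsto_pow_atTop_nhds_zero_of_lt_one (div_pos (p k) (p n)).le this)).mul_const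
          (g ((ε k : 𝕜) • x k))) (.of_forall fun m k => by
        by_cases hk : g (x k) = 0
        · simp [hk]
        rw [norm_mul, norm_ofReal, abs_of_pos (pow_pos (div_pos (p k) (p n)) _)]
        refine (mul_le_of_le_one_left (norm_nonneg _) (pow_le_one₀ (div_pos (p k) (p n)).le
          ((div_le_one (p n)).2 (by linarith [le k hk])))).trans ((g.le_opNorm _).trans ?_)
        gcongr; exact nv k)
    rw [tsum_ite_eq] at t
    obtain ⟨r, hr⟩ := H1 (g ((ε n : 𝕜) • x n)) (by simpa [(ε0 n).ne'] using Nat.find_spec ex)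
    have t0 : Tendsto (fun m : ℕ => 4 * m + r) atTop atTop :=
      tendsto_atTop_mono (fun m => by simp; omega) tendsto_id
    have t2 := ((tendsto_pow_atTop_atTop_of_one_lt (by linarith [ε0 n] : 1 < 2 + ε n)).comp
      t0).atTop_mul_pos hr (continuous_re.continuousAt.tendsto.comp ((t.comp t0).const_mul (ω ^ r)))
    obtain ⟨m, hm⟩ := (t2.eventually_gt_atTop u).exists
    refine (hm.trans_eq ?_).not_gt (g3 (4 * m + r))
    simp only [Function.comp]
    rw [← re_ofReal_mul, ← ((hv.mapL (S ^ (4 * m + r))).mapL g).tsum_eq, ← tsum_mul_left,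
      ← tsum_mul_left]
    congr 2 with k
    have : ((2 + ε n : ℝ) : 𝕜) ≠ 0 := by exact_mod_cast (p n).ne'
    simp only [map_smul, S1, pow_add ω, pow_mul ω, h4, one_pow, ofReal_pow, ofReal_div, div_pow, smul_eq_mul]
    field_simp
  · obtain ⟨n, hn⟩ : ∃ n, x n ≠ 0 := by
      by_contra! h
      obtain ⟨z, hz⟩ := exists_ne (0 : X)
      obtain ⟨g, -, hg⟩ := exists_dual_vector 𝕜 z (norm_ne_zero_iff.2 hz)
      rw [h5 g fun i => by simp [h i]] at hg
      exact hz (norm_eq_zero.1 (ofReal_eq_zero.1 hg.symm))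
    have f1 : f n (x n) = 1 := smul_left_injective 𝕜 hn ((h2 n).trans (one_smul _ _).symm)
    obtain ⟨e, e0, he⟩ := H2 (f n y)
    have cv : Convex ℝ {z | 0 ≤ re (e * f n z)} := fun a ha b hb s t hs ht _ => by
      simp only [Set.mem_ofPred, map_add, real_smul_eq_coe_smul (K := 𝕜), map_smul, smul_eq_mul,
        mul_add, mul_left_comm e, re_ofReal_mul] at ha hb ⊢
      positivity
    have := closure_minimal (convexHull_min (by
      rintro _ ⟨j, rfl⟩
      simp only [Set.mem_ofPred, ← pow_mul, S2, mul_left_comm e, re_ofReal_mul]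
      exact mul_nonneg (pow_pos (by linarith [ε0 n]) _).le (by rw [pow_mul, mul_left_comm]; exact he j)) cv)
      (isClosed_le continuous_const (by fun_prop)) (hy ((-e⁻¹) • x n))
    rw [Set.mem_ofPred, map_smul, f1, smul_eq_mul, mul_one, mul_neg, mul_inv_cancel₀ e0] at this
    norm_num at this

theorem result :
    (∀ (X : Type*) [NormedAddCommGroup X] [NormedSpace ℝ X] [CompleteSpace X] [Nontrivial X]
      [TopologicalSpace.SeparableSpace X],
      ∃ S : X →L[ℝ] X, ConvexCyclic S ∧ ¬ ConvexCyclic (S ^ 2)) ∧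
    ∀ (X : Type*) [NormedAddCommGroup X] [NormedSpace ℂ X] [CompleteSpace X] [Nontrivial X]
      [TopologicalSpace.SeparableSpace X],
      ∃ S : X →L[ℂ] X, ConvexCyclic S ∧ ¬ ConvexCyclic (S ^ 2) := by
  refine ⟨fun X _ _ _ _ _ => main (-1) (by norm_num) (fun c hc => ?_) fun c => ?_,
    fun X _ _ _ _ _ => main Complex.I (by simp) (fun c hc => ?_) fun c => ?_⟩
  · rcases hc.lt_or_gt with h | h
    exacts [⟨1, by simpa⟩, ⟨0, by simpa⟩]
  · rcases le_total 0 c with h | h
    exacts [⟨1, one_ne_zero, by simpa⟩, ⟨-1, by simp, by simpa⟩]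
  · by_contra! h
    have h0 := h 0
    have h1 := h 1
    have h2 := h 2
    have h3 := h 3
    simp at h0 h1 h2 h3
    exact hc (Complex.ext (h0.antisymm h2) (h3.antisymm h1))
  · by_cases h : c = 0
    · exact ⟨1, one_ne_zero, by simp [h]⟩
    · refine ⟨Complex.I * star c, by simpa using h, fun j => ?_⟩
      rcases neg_one_pow_eq_or ℂ j with e | e <;> simp [e] <;> linarith

end Pool.Agent.Results.MP_8292e8_an.Exists
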